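import Pool.Agent.K1H49.PL.Gen

/-! Two lemmas for the extension step of project PL, general case. -/

set_option autoImplicit false

namespace Pool.Agent.K1H24.PLG

open Pool.Agent.K1H49.PL

/-- patterns extend to longer patterns -/
theorem ext_pt {a N : ℕ} (E : LN a → Nd) (hE : Pt ndl a E) :
    ∃ E' : LN N → Nd, Pt ndl N E' ∧
      ∀ (η : Nd) (h1 : η.length ≤ a) (h2 : η.length ≤ N), E' ⟨η, h2⟩ = E ⟨η, h1⟩ := by
  refine ⟨fun η => E ⟨η.1.take a, by simp⟩ ++ η.1.drop a, ?_, ?_⟩
  · rintro ⟨η, hη⟩ ⟨η', hη'⟩ d ⟨τ, hτ⟩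
    simp only at hτ
    subst hτ
    unfold ndl
    simp only
    by_cases h : η.length < a
    · have h1 : η.take a = η := List.take_of_length_le h.le
      have h2 : η.drop a = [] := List.drop_of_length_le h.le
      have h3 : (η ++ [d]) <+: (η ++ [d] ++ τ).take a :=
        List.prefix_take_iff.2 ⟨List.prefix_append _ _, by simp; omega⟩
      have h4 := hE ⟨η.take a, by simp⟩ ⟨(η ++ [d] ++ τ).take a, by simp⟩ d (by
        simp only [h1]
        exact h3)
      rw [h2, List.append_nil]
      exact h4.trans (List.prefix_append _ _)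
    · push Not at h
      have h1 : (η ++ [d] ++ τ).take a = η.take a := by
        rw [List.append_assoc, List.take_append_of_le_length h]
      have h2 : (η ++ [d] ++ τ).drop a = η.drop a ++ ([d] ++ τ) := by
        rw [List.append_assoc, List.drop_append_of_le_length h]
      simp only [h1, h2]
      refine ⟨τ, by simp⟩
  · intro η h1 h2
    have h3 : η.take a = η := List.take_of_length_le h1
    have h4 : η.drop a = [] := List.drop_of_length_le h1
    simp only [h3, h4, List.append_nil]

open Classical in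
/-- replacing the cones of `π` by copies -/
theorem swap_pt {I : Type} {lt : Bool → I → I → Prop} (hB : BT lt) (π : I) {C0 C1 : Nd → I}
    (hC0 : Cpy lt C0) (hC1 : Cpy lt C1) (hπ0 : ∀ ν, lt false π (C0 ν))
    (hπ1 : ∀ ν, lt true π (C1 ν)) {n : ℕ} {E0 : LN n → I} (hE : Pt lt n E0) {G0 G1 : LN n → Nd}
    (h0 : Pt ndl n G0) (h1 : Pt ndl n G1) :
    Pt lt n (fun η => if lt false π (E0 η) then C0 (G0 η) else
      if lt true π (E0 η) then C1 (G1 η) else E0 η) := by
  intro η η' d hη
  have hlt := hE η η' d hη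
  simp only
  by_cases a0 : lt false π (E0 η)
  · have b0 : lt false π (E0 η') := hB.trans a0 hlt
    rw [if_pos a0, if_pos b0]
    exact hC0 _ _ _ (h0 η η' d hη)
  by_cases a1 : lt true π (E0 η)
  · have b1 : lt true π (E0 η') := hB.trans a1 hlt
    have b0 : ¬ lt false π (E0 η') := fun h => by simpa using hB.uniq b1 h
    rw [if_neg a0, if_pos a1, if_neg b0, if_pos b1]
    exact hC1 _ _ _ (h1 η η' d hη)
  rw [if_neg a0, if_neg a1]
  have key : ∀ (e : Bool) (z : I), lt e π (E0 η') → lt e π z → lt d (E0 η) z := by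
    intro e z h2 h3
    rcases hB.lin hlt h2 with h4 | ⟨e', h4⟩ | ⟨e', h4⟩
    · rw [h4] at hlt ⊢
      rw [hB.uniq hlt h2]
      exact h3
    · have h5 := hB.trans h4 h2
      rw [hB.uniq hlt h5]
      exact hB.trans h4 h3
    · have h5 := hB.trans h4 hlt
      cases e' with
      | false => exact absurd h4 a0
      | true => exact absurd h4 a1
  by_cases b0 : lt false π (E0 η')
  · rw [if_pos b0]
    exact key _ _ b0 (hπ0 _)
  by_cases b1 : lt true π (E0 η')
  · rw [if_neg b0, if_pos b1]
    exact key _ _ b1 (hπ1 _)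
  rw [if_neg b0, if_neg b1]
  exact hlt

end Pool.Agent.K1H24.PLG
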